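import Pool.Agent.Q107.Broadcast.Basic

/-!
# The ratio `Γ_b / Γ` is unbounded

The definitions `ecc`, `IsBroadcast`, `IsDominating`, `IsMinDominating` and `upperBroadcastNum`
are in `Pool.Agent.Q107.Broadcast.Defs`.
-/

set_option autoImplicit false

namespace Pool.Agent.Results.MP_9b093e_co.RatioUnbounded

open SimpleGraph Finset Q107.Broadcast

/-- `S` is a dominating set of `G`: every vertex is in `S` or has a neighbour in `S`. -/
def IsDomSet {V : Type} (G : SimpleGraph V) (S : Finset V) : Prop :=
  ∀ v, v ∈ S ∨ ∃ w ∈ S, G.Adj w v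

/-- `S` is a minimal dominating set: a dominating set no proper subset of which is dominating. -/
def IsMinDomSet {V : Type} (G : SimpleGraph V) (S : Finset V) : Prop :=
  IsDomSet G S ∧ ∀ T, T ⊂ S → ¬ IsDomSet G T

/-- The upper domination number `Γ(G)`. -/
noncomputable def upperDomNum {V : Type} (G : SimpleGraph V) : ℕ :=
  sSup {k | ∃ S : Finset V, IsMinDomSet G S ∧ S.card = k}

section facts

variable {V : Type} [Fintype V] {G : SimpleGraph V}

omit [Fintype V] in
lemma upper_dom_le {k : ℕ} (h : ∀ S, IsMinDomSet G S → S.card ≤ k) : upperDomNum G ≤ k := by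
  unfold upperDomNum
  rcases Set.eq_empty_or_nonempty {k | ∃ S : Finset V, IsMinDomSet G S ∧ S.card = k} with h' | h'
  · rw [h']
    simp
  · apply csSup_le h'
    rintro m ⟨S, hS, rfl⟩
    exact h S hS

lemma exists_minDom : ∃ S : Finset V, IsMinDomSet G S := by
  have h : ∃ S : Finset V, IsDomSet G S := ⟨univ, fun v => Or.inl (mem_univ v)⟩
  obtain ⟨S, hS, hmin⟩ := WellFounded.has_min (wellFounded_lt (α := Finset V))
    {S : Finset V | IsDomSet G S} h
  exact ⟨S, hS, fun T hT hd => hmin T hd hT⟩

lemma upper_dom_pos [Nonempty V] : 0 < upperDomNum G := by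
  obtain ⟨S, hS⟩ := exists_minDom (G := G)
  have h1 : 0 < S.card := by
    rw [Finset.card_pos]
    obtain ⟨v⟩ := (inferInstance : Nonempty V)
    rcases hS.1 v with h | ⟨w, h, _⟩
    · exact ⟨v, h⟩
    · exact ⟨w, h⟩
  refine lt_of_lt_of_le h1 (le_csSup ⟨Fintype.card V, ?_⟩ ⟨S, hS, rfl⟩)
  rintro k ⟨T, _, rfl⟩
  exact Finset.card_le_univ T

omit [Fintype V] in
/-- every member of a minimal dominating set has a private neighbour -/
lemma private_nbr {S : Finset V} (hS : IsMinDomSet G S) {v : V} (hv : v ∈ S) :
    ∃ p, (p = v ∨ G.Adj v p) ∧ (∀ w ∈ S, w ≠ v → w ≠ p ∧ ¬ G.Adj w p) := by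
  classical
  have h := hS.2 (S.erase v) (Finset.erase_ssubset hv)
  unfold IsDomSet at h
  push Not at h
  obtain ⟨p, hp1, hp2⟩ := h
  refine ⟨p, ?_, fun w hw hne => ⟨?_, hp2 w (Finset.mem_erase.2 ⟨hne, hw⟩)⟩⟩
  · rcases hS.1 p with h | ⟨w, hw, hadj⟩
    · left
      by_contra hne
      exact hp1 (Finset.mem_erase.2 ⟨hne, h⟩)
    · right
      by_cases hwv : w = v
      · exact hwv ▸ hadj
      · exact absurd hadj (hp2 w (Finset.mem_erase.2 ⟨hwv, hw⟩))
  · rintro rfl
    exact hp1 (Finset.mem_erase.2 ⟨hne, hw⟩)

end facts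

/-! ### the graph -/

/-- `inl (l, i)` is the vertex in column `i` of layer `l ≤ k`; `inr l` is the extra vertex attached
to the layer `l + 1`. -/
abbrev Vt (n k : ℕ) : Type := (Fin (k + 1) × Fin n) ⊕ Fin k

/-- distances -/
def D {n k : ℕ} : Vt n k → Vt n k → ℕ
  | Sum.inl (l, i), Sum.inl (m, j) => (l.val - m.val) + (m.val - l.val) + if i = j then 0 else 1
  | Sum.inl (l, _), Sum.inr m => (l.val - (m.val + 1)) + ((m.val + 1) - l.val) + 1
  | Sum.inr m, Sum.inl (l, _) => (l.val - (m.val + 1)) + ((m.val + 1) - l.val) + 1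
  | Sum.inr l, Sum.inr m => if l = m then 0 else (l.val - m.val) + (m.val - l.val) + 2

lemma D_comm {n k : ℕ} (x y : Vt n k) : D x y = D y x := by
  rcases x with ⟨l, i⟩ | l <;> rcases y with ⟨m, j⟩ | m <;> simp only [D, eq_comm] <;>
    split_ifs <;> omega

/-- the graph: every layer is a clique, equal columns of consecutive layers are joined, and the
extra vertices are joined to their whole layer -/
def G (n k : ℕ) : SimpleGraph (Vt n k) where
  Adj x y := D x y = 1
  symm := ⟨fun x y h => by rw [D_comm]; exact h⟩
  loopless := ⟨fun x h => by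
    rcases x with ⟨l, i⟩ | l <;> simp [D] at h⟩

lemma adj_iff {n k : ℕ} (x y : Vt n k) : (G n k).Adj x y ↔ D x y = 1 := Iff.rfl

lemma tbl {n k : ℕ} (hn : 0 < n) (x y : Vt n k) :
    (G n k).Reachable x y ∧ (G n k).dist x y = D x y := by
  apply table
  · rintro (⟨l, i⟩ | l) <;> simp [D]
  · intro u v w h
    rw [adj_iff] at h
    rcases u with ⟨a, i⟩ | a <;> rcases v with ⟨b, j⟩ | b <;> rcases w with ⟨c, l⟩ | c <;>
      simp only [D, Fin.ext_iff] at h ⊢ <;> split_ifs at h ⊢ <;> omega
  · intro u v hne
    rcases u with ⟨a, i⟩ | a <;> rcases v with ⟨b, j⟩ | b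
    · by_cases hij : i = j
      · subst hij
        have hab : a.val ≠ b.val := fun h => hne (by rw [Fin.ext h])
        have ha := a.2
        have hb := b.2
        by_cases hlt : a.val < b.val
        · refine ⟨Sum.inl (⟨b.val - 1, by omega⟩, i), ?_, ?_⟩
          · rw [adj_iff]; simp only [D, if_true]; omega
          · simp only [D, if_true]; omega
        · refine ⟨Sum.inl (⟨b.val + 1, by omega⟩, i), ?_, ?_⟩
          · rw [adj_iff]; simp only [D, if_true]; omega
          · simp only [D, if_true]; omega
      · refine ⟨Sum.inl (b, i), ?_, ?_⟩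
        · rw [adj_iff]; simp only [D, if_neg hij]; omega
        · simp only [D, if_neg hij, if_true]
    · have hb := b.2
      refine ⟨Sum.inl (⟨b.val + 1, by omega⟩, i), ?_, ?_⟩
      · rw [adj_iff]; simp only [D]; omega
      · simp only [D, if_true]
    · have ha := a.2
      have hb := b.2
      by_cases h : a.val + 1 = b.val
      · refine ⟨Sum.inr a, ?_, ?_⟩
        · rw [adj_iff]; simp only [D]; omega
        · simp only [D, if_true]; omega
      · by_cases hlt : a.val + 1 < b.val
        · refine ⟨Sum.inl (⟨b.val - 1, by omega⟩, j), ?_, ?_⟩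
          · rw [adj_iff]; simp only [D, if_true]; omega
          · simp only [D]; omega
        · refine ⟨Sum.inl (⟨b.val + 1, by omega⟩, j), ?_, ?_⟩
          · rw [adj_iff]; simp only [D, if_true]; omega
          · simp only [D]; omega
    · have hab : a ≠ b := fun h => hne (by rw [h])
      have hab' : a.val ≠ b.val := fun h => hab (Fin.ext h)
      have hb := b.2
      refine ⟨Sum.inl (⟨b.val + 1, by omega⟩, ⟨0, hn⟩), ?_, ?_⟩
      · rw [adj_iff]; simp only [D]; omega
      · simp only [D, if_neg hab]; omega

/-! ### the broadcast -/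

/-- the broadcast -/
def fb {n k : ℕ} : Vt n k → ℕ
  | Sum.inl (l, _) => if l.val = k then k else 0
  | Sum.inr _ => 0

lemma fb_top {n k : ℕ} (i : Fin n) : fb (Sum.inl ((Fin.last k), i) : Vt n k) = k := by
  simp [fb]

lemma fb_pos {n k : ℕ} {v : Vt n k} (h : 0 < fb v) : ∃ i, v = Sum.inl (Fin.last k, i) := by
  rcases v with ⟨l, i⟩ | l
  · simp only [fb] at h
    split_ifs at h with h1
    · exact ⟨i, by rw [show l = Fin.last k from Fin.ext (by simpa using h1)]⟩
    · omega
  · simp [fb] at h

lemma fb_sum {n k : ℕ} : ∑ v : Vt n k, fb v = n * k := by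
  rw [Fintype.sum_sum_type, Fintype.sum_prod_type, Fin.sum_univ_castSucc]
  have h1 : ∀ l : Fin k, ∀ i : Fin n, fb (Sum.inl (l.castSucc, i) : Vt n k) = 0 := by
    intro l i
    have := l.2
    simp [fb]
    omega
  simp only [h1, fb_top]
  simp [fb]

lemma fb_min {n k : ℕ} (hn : 0 < n) (hk : 0 < k) : IsMinDominating (G n k) fb := by
  apply min_of_priv
  · intro v
    by_cases h : 0 < fb v
    · obtain ⟨i, rfl⟩ := fb_pos h
      rw [fb_top]
      have h1 := dist_le_ecc (G := G n k) (Sum.inl (0, i)) (Sum.inl (Fin.last k, i))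
      rw [(tbl hn _ _).2] at h1
      simp only [D, if_true, Fin.val_zero, Fin.val_last] at h1
      omega
    · omega
  · rintro (⟨l, i⟩ | l)
    · refine ⟨Sum.inl (Fin.last k, i), by rw [fb_top]; exact hk, ?_⟩
      rw [(tbl hn _ _).2, fb_top]
      have := l.2
      simp only [D, if_true, Fin.val_last]
      omega
    · refine ⟨Sum.inl (Fin.last k, ⟨0, hn⟩), by rw [fb_top]; exact hk, ?_⟩
      rw [(tbl hn _ _).2, fb_top]
      have := l.2
      simp only [D, Fin.val_last]
      omega
  · intro v hv
    obtain ⟨i, rfl⟩ := fb_pos hv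
    refine ⟨Sum.inl (0, i), ?_, ?_, Or.inr ?_⟩
    · rw [(tbl hn _ _).2, fb_top]
      simp only [D, if_true, Fin.val_zero, Fin.val_last]
      omega
    · intro w hne hw
      obtain ⟨j, rfl⟩ := fb_pos hw
      have hij : i ≠ j := fun h => hne (by rw [h])
      rw [(tbl hn _ _).2, fb_top]
      simp only [D, if_neg hij, Fin.val_zero, Fin.val_last]
      omega
    · rw [(tbl hn _ _).2, fb_top]
      simp only [D, if_true, Fin.val_zero, Fin.val_last]
      omega

/-! ### minimal dominating sets are small -/

lemma layer_small {n k : ℕ} {S : Finset (Vt n k)} (hS : IsMinDomSet (G n k) S)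
    {l : Fin (k + 1)} (hl : l.val ≠ 1) {i j : Fin n} (hi : Sum.inl (l, i) ∈ S)
    (hj : Sum.inl (l, j) ∈ S) : i = j := by
  by_contra hij
  obtain ⟨p, hp1, hp2⟩ := private_nbr hS hi
  have hjp := hp2 _ hj (by simpa using Ne.symm hij)
  rw [adj_iff] at hjp
  have hp1' : p = Sum.inl (l, i) ∨ D (Sum.inl (l, i)) p = 1 := hp1
  rcases p with ⟨m, c⟩ | m
  · -- the private neighbour is in another layer
    have hm : m.val + 1 = l.val ∨ m.val = l.val + 1 := by
      rcases hp1' with h | h
      · exfalso
        obtain ⟨h1, h2⟩ : m = l ∧ c = i := by simpa using h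
        subst h1; subst h2
        apply hjp.2
        simp only [D, if_neg (Ne.symm hij)]
        omega
      · by_cases hml : m.val = l.val
        · exfalso
          have hml' : m = l := Fin.ext hml
          subst hml'
          by_cases hjc : j = c
          · exact hjp.1 (by rw [hjc])
          · apply hjp.2
            simp only [D, if_neg hjc]
            omega
        · simp only [D] at h
          split_ifs at h <;> omega
    -- the extra vertex attached to the layer `m` is not dominated
    have hm0 : m.val ≠ 0 := by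
      intro h0
      omega
    have hmk := m.2
    have hml : m ≠ l := by
      rintro rfl
      omega
    rcases hS.1 (Sum.inr ⟨m.val - 1, by omega⟩) with h | ⟨w, hw, hadj⟩
    · have := hp2 _ h (by simp)
      apply this.2
      rw [adj_iff]
      simp only [D]
      omega
    · rw [adj_iff] at hadj
      rcases w with ⟨a, b⟩ | a
      · simp only [D] at hadj
        have ham : a = m := Fin.ext (by omega)
        subst ham
        have := hp2 _ hw (by
          intro h
          exact hml (by simpa using (Prod.mk.inj (Sum.inl.inj h)).1))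
        by_cases hbc : b = c
        · exact this.1 (by rw [hbc])
        · apply this.2
          rw [adj_iff]
          simp only [D, if_neg hbc]
          omega
      · simp only [D] at hadj
        split_ifs at hadj
        omega
  · rcases hp1' with h | h
    · simp at h
    · apply hjp.2
      simp only [D] at h ⊢
      omega

lemma minDom_card {n k : ℕ} {S : Finset (Vt n k)} (hS : IsMinDomSet (G n k) S) :
    S.card ≤ n + 2 * k := by
  classical
  -- send the member `(l, i)` of a layer other than layer 1 to its layer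
  by_cases hk : k = 0
  · subst hk
    have h1 : S.card ≤ Fintype.card (Vt n 0) := Finset.card_le_univ S
    simpa using h1
  · have hinj : Set.InjOn (fun v : Vt n k => (match v with
        | Sum.inl (l, i) => if l.val = 1 then Sum.inl i else Sum.inr (Sum.inl
            (⟨l.val - 1, by have := l.2; omega⟩ : Fin k))
        | Sum.inr l => Sum.inr (Sum.inr l) : Fin n ⊕ (Fin k ⊕ Fin k))) S := by
      rintro (⟨l, i⟩ | l) hx (⟨m, j⟩ | m) hy hxy
      · dsimp only at hxy
        split_ifs at hxy with h1 h2 h3
        · have : i = j := by simpa using hxy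
          rw [this, show l = m from Fin.ext (h1.trans h2.symm)]
        · have h4 : l.val - 1 = m.val - 1 := by simpa using hxy
          have h5 : l = m := Fin.ext (by omega)
          subst h5
          rw [layer_small hS h1 hx hy]
      · exfalso
        dsimp only at hxy
        split_ifs at hxy
        simp at hxy
      · exfalso
        dsimp only at hxy
        split_ifs at hxy
        simp at hxy
      · simpa using hxy
    have h1 := Finset.card_le_card_of_injOn (t := univ) _ (fun _ _ => Finset.mem_univ _) hinj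
    simp at h1
    omega

/-- For every natural number `C` there is a finite connected graph `G` with at least two vertices
and `C · Γ(G) < Γ_b(G)`. -/
theorem result (C : ℕ) :
    ∃ (V : Type) (_ : Fintype V) (_ : Nontrivial V) (G : SimpleGraph V), G.Connected ∧
      0 < upperDomNum G ∧ C * upperDomNum G < upperBroadcastNum G := by
  have hn : 0 < 2 * C * (C + 1) + 1 := by omega
  have hnt : Nontrivial (Vt (2 * C * (C + 1) + 1) (C + 1)) :=
    ⟨Sum.inl (0, ⟨0, hn⟩), Sum.inr 0, by simp⟩
  refine ⟨Vt (2 * C * (C + 1) + 1) (C + 1), inferInstance, hnt, G _ _, ?_, upper_dom_pos, ?_⟩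
  · rw [connected_iff]
    exact ⟨fun x y => (tbl hn x y).1, inferInstance⟩
  · have h1 : upperDomNum (G (2 * C * (C + 1) + 1) (C + 1)) ≤
        (2 * C * (C + 1) + 1) + 2 * (C + 1) := upper_dom_le fun S hS => minDom_card hS
    have h2 := le_upper (fb_min hn (Nat.succ_pos C))
    rw [fb_sum] at h2
    have h3 := Nat.mul_le_mul_left C h1
    nlinarith

end Pool.Agent.Results.MP_9b093e_co.RatioUnbounded
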